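import Mathlib

/-!
# Itô's theorem, dihedral 2-groups and products
-/

set_option autoImplicit false

namespace Pool.Agent.Y795.DLC

open scoped commutatorElement

/-! ### Itô's theorem -/

section Ito

variable {G : Type} [Group G]

/-- conjugation acts on commutators -/
theorem conj_comm (x a b : G) : x * ⁅a, b⁆ * x⁻¹ = ⁅x * a * x⁻¹, x * b * x⁻¹⁆ := by
  simp only [commutatorElement_def]; group

theorem conj_of_comm {x a : G} (h : x * a = a * x) : x * a * x⁻¹ = a := by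
  rw [h]; group

/-- **Itô's theorem**: a product of two abelian subgroups is metabelian. -/
theorem ito (A B : Subgroup G) (hA : ∀ a ∈ A, ∀ b ∈ A, a * b = b * a)
    (hB : ∀ a ∈ B, ∀ b ∈ B, a * b = b * a) (hAB : ∀ g : G, ∃ a ∈ A, ∃ b ∈ B, g = a * b) :
    derivedSeries G 2 = ⊥ := by
  have hBA : ∀ g : G, ∃ b ∈ B, ∃ a ∈ A, g = b * a := by
    intro g
    obtain ⟨a, ha, b, hb, h⟩ := hAB g⁻¹
    refine ⟨b⁻¹, B.inv_mem hb, a⁻¹, A.inv_mem ha, ?_⟩
    rw [← mul_inv_rev, ← h, inv_inv]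
  -- the set of the commutators
  let S : Set G := {c | ∃ a ∈ A, ∃ b ∈ B, c = ⁅a, b⁆}
  -- conjugates by A
  have key1 : ∀ x ∈ A, ∀ a ∈ A, ∀ b ∈ B, ∃ b' ∈ B, (∃ a' ∈ A, x * b * x⁻¹ = b' * a') ∧
      ∀ c ∈ A, ⁅c, x * b * x⁻¹⁆ = ⁅c, b'⁆ := by
    intro x hx a ha b hb
    obtain ⟨b', hb', a', ha', h⟩ := hBA (x * b * x⁻¹)
    refine ⟨b', hb', ⟨a', ha', h⟩, fun c hc => ?_⟩
    rw [h]
    have h1 : c * a' = a' * c := hA c hc a' ha'
    have h2 : c⁻¹ * a'⁻¹ = a'⁻¹ * c⁻¹ := by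
      rw [← mul_inv_rev, ← mul_inv_rev, h1]
    simp only [commutatorElement_def, mul_inv_rev]
    calc c * (b' * a') * c⁻¹ * (a'⁻¹ * b'⁻¹) = c * b' * (a' * (c⁻¹ * a'⁻¹)) * b'⁻¹ := by group
      _ = c * b' * c⁻¹ * b'⁻¹ := by rw [h2]; group
  have key2 : ∀ y ∈ B, ∀ a ∈ A, ∃ a' ∈ A, (∃ b' ∈ B, y * a * y⁻¹ = a' * b') ∧
      ∀ d ∈ B, ⁅y * a * y⁻¹, d⁆ = ⁅a', d⁆ := by
    intro y hy a ha
    obtain ⟨a', ha', b', hb', h⟩ := hAB (y * a * y⁻¹)
    refine ⟨a', ha', ⟨b', hb', h⟩, fun d hd => ?_⟩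
    rw [h]
    have h1 : b' * d = d * b' := hB b' hb' d hd
    simp only [commutatorElement_def, mul_inv_rev]
    calc a' * b' * d * (b'⁻¹ * a'⁻¹) * d⁻¹ = a' * (b' * d) * b'⁻¹ * a'⁻¹ * d⁻¹ := by group
      _ = a' * d * a'⁻¹ * d⁻¹ := by rw [h1]; group
  -- the commutators `[x, y]` centralise the commutators `[a, b]`
  have hcomm : ∀ x ∈ A, ∀ y ∈ B, ∀ a ∈ A, ∀ b ∈ B,
      (y * x) * ⁅a, b⁆ * (y * x)⁻¹ = (x * y) * ⁅a, b⁆ * (x * y)⁻¹ := by
    intro x hx y hy a ha b hb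
    obtain ⟨b', hb', -, h1⟩ := key1 x hx a ha b hb
    obtain ⟨a', ha', -, h2⟩ := key2 y hy a ha
    have e1 : (y * x) * ⁅a, b⁆ * (y * x)⁻¹ = y * (x * ⁅a, b⁆ * x⁻¹) * y⁻¹ := by group
    have e2 : (x * y) * ⁅a, b⁆ * (x * y)⁻¹ = x * (y * ⁅a, b⁆ * y⁻¹) * x⁻¹ := by group
    rw [e1, e2, conj_comm x a b, conj_of_comm (hA x hx a ha), h1 a ha, conj_comm y a b',
      conj_of_comm (hB y hy b' hb'), h2 b' hb', conj_comm y a b, conj_of_comm (hB y hy b hb),
      h2 b hb, conj_comm x a' b, conj_of_comm (hA x hx a' ha'), h1 a' ha']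
  let K : Subgroup G := Subgroup.closure S
  -- K is commutative
  have hSS : ∀ s ∈ S, ∀ t ∈ S, s * t = t * s := by
    rintro _ ⟨x, hx, y, hy, rfl⟩ _ ⟨a, ha, b, hb, rfl⟩
    have h := hcomm (x⁻¹) (A.inv_mem hx) (y⁻¹) (B.inv_mem hy) a ha b hb
    -- conjugation by x y x⁻¹ y⁻¹
    have h2 : ⁅x, y⁆ * ⁅a, b⁆ * ⁅x, y⁆⁻¹ = ⁅a, b⁆ := by
      have e : ⁅x, y⁆ = (x * y) * (x⁻¹ * y⁻¹) := by rw [commutatorElement_def]; group
      have e3 : ⁅x, y⁆ * ⁅a, b⁆ * ⁅x, y⁆⁻¹ =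
          (x * y) * ((x⁻¹ * y⁻¹) * ⁅a, b⁆ * (x⁻¹ * y⁻¹)⁻¹) * (x * y)⁻¹ := by
        rw [e]; group
      rw [e3, ← h]
      group
    calc ⁅x, y⁆ * ⁅a, b⁆ = (⁅x, y⁆ * ⁅a, b⁆ * ⁅x, y⁆⁻¹) * ⁅x, y⁆ := by group
      _ = ⁅a, b⁆ * ⁅x, y⁆ := by rw [h2]
  have hKS : ∀ k ∈ K, ∀ t ∈ S, k * t = t * k := by
    intro k hk t ht
    induction hk using Subgroup.closure_induction with
    | mem x hx => exact hSS x hx t ht
    | one => simp
    | mul x y _ _ hx hy => rw [mul_assoc, hy, ← mul_assoc, hx, mul_assoc]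
    | inv x _ hx =>
      calc x⁻¹ * t = x⁻¹ * (t * x) * x⁻¹ := by group
        _ = x⁻¹ * (x * t) * x⁻¹ := by rw [hx]
        _ = t * x⁻¹ := by group
  have hKK : ∀ k ∈ K, ∀ l ∈ K, k * l = l * k := by
    intro k hk l hl
    induction hl using Subgroup.closure_induction with
    | mem x hx => exact hKS k hk x hx
    | one => simp
    | mul x y _ _ hx hy => rw [← mul_assoc, hx, mul_assoc, hy, ← mul_assoc]
    | inv x _ hx =>
      calc k * x⁻¹ = x⁻¹ * (x * k) * x⁻¹ := by group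
        _ = x⁻¹ * (k * x) * x⁻¹ := by rw [hx]
        _ = x⁻¹ * k := by group
  -- K is normal
  have hnA : ∀ x ∈ A, ∀ k ∈ K, x * k * x⁻¹ ∈ K := by
    intro x hx k hk
    induction hk using Subgroup.closure_induction with
    | mem s hs =>
      obtain ⟨a, ha, b, hb, rfl⟩ := hs
      obtain ⟨b', hb', -, h1⟩ := key1 x hx a ha b hb
      rw [conj_comm x a b, conj_of_comm (hA x hx a ha), h1 a ha]
      exact Subgroup.subset_closure ⟨a, ha, b', hb', rfl⟩
    | one => simp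
    | mul u v _ _ hu hv =>
      have : x * (u * v) * x⁻¹ = (x * u * x⁻¹) * (x * v * x⁻¹) := by group
      rw [this]; exact K.mul_mem hu hv
    | inv u _ hu =>
      have : x * u⁻¹ * x⁻¹ = (x * u * x⁻¹)⁻¹ := by group
      rw [this]; exact K.inv_mem hu
  have hnB : ∀ y ∈ B, ∀ k ∈ K, y * k * y⁻¹ ∈ K := by
    intro y hy k hk
    induction hk using Subgroup.closure_induction with
    | mem s hs =>
      obtain ⟨a, ha, b, hb, rfl⟩ := hs
      obtain ⟨a', ha', -, h2⟩ := key2 y hy a ha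
      rw [conj_comm y a b, conj_of_comm (hB y hy b hb), h2 b hb]
      exact Subgroup.subset_closure ⟨a', ha', b, hb, rfl⟩
    | one => simp
    | mul u v _ _ hu hv =>
      have : y * (u * v) * y⁻¹ = (y * u * y⁻¹) * (y * v * y⁻¹) := by group
      rw [this]; exact K.mul_mem hu hv
    | inv u _ hu =>
      have : y * u⁻¹ * y⁻¹ = (y * u * y⁻¹)⁻¹ := by group
      rw [this]; exact K.inv_mem hu
  have hn : K.Normal := by
    constructor
    intro k hk g
    obtain ⟨a, ha, b, hb, rfl⟩ := hAB g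
    have : a * b * k * (a * b)⁻¹ = a * (b * k * b⁻¹) * a⁻¹ := by group
    rw [this]
    exact hnA a ha _ (hnB b hb k hk)
  -- the quotient is commutative
  have hq : ∀ a ∈ A, ∀ b ∈ B, (a : G ⧸ K) * (b : G ⧸ K) = (b : G ⧸ K) * (a : G ⧸ K) := by
    intro a ha b hb
    have h1 : ((⁅a, b⁆ : G) : G ⧸ K) = 1 :=
      (QuotientGroup.eq_one_iff _).2 (Subgroup.subset_closure ⟨a, ha, b, hb, rfl⟩)
    rw [commutatorElement_def, QuotientGroup.mk_mul, QuotientGroup.mk_mul, QuotientGroup.mk_mul,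
      QuotientGroup.mk_inv, QuotientGroup.mk_inv] at h1
    rw [mul_inv_eq_one, mul_inv_eq_iff_eq_mul] at h1
    exact h1
  have hq2 : ∀ g h : G, (g : G ⧸ K) * (h : G ⧸ K) = (h : G ⧸ K) * (g : G ⧸ K) := by
    intro g h
    obtain ⟨a, ha, b, hb, rfl⟩ := hAB g
    obtain ⟨c, hc, d, hd, rfl⟩ := hAB h
    have e1 : (a : G ⧸ K) * (c : G ⧸ K) = (c : G ⧸ K) * (a : G ⧸ K) := by
      rw [← QuotientGroup.mk_mul, hA a ha c hc, QuotientGroup.mk_mul]
    have e2 : (b : G ⧸ K) * (d : G ⧸ K) = (d : G ⧸ K) * (b : G ⧸ K) := by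
      rw [← QuotientGroup.mk_mul, hB b hb d hd, QuotientGroup.mk_mul]
    have e3 := hq c hc b hb
    have e4 := hq a ha d hd
    push_cast
    calc (a : G ⧸ K) * b * (c * d) = a * (b * c) * d := by group
      _ = a * (c * b) * d := by rw [e3]
      _ = (a * c) * (b * d) := by group
      _ = (c * a) * (d * b) := by rw [e1, e2]
      _ = c * (a * d) * b := by group
      _ = c * (d * a) * b := by rw [e4]
      _ = c * d * (a * b) := by group
  have hG1 : derivedSeries G 1 ≤ K := by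
    rw [derivedSeries_succ, derivedSeries_zero, Subgroup.commutator_le]
    intro g _ h _
    rw [← QuotientGroup.eq_one_iff, commutatorElement_def, QuotientGroup.mk_mul,
      QuotientGroup.mk_mul, QuotientGroup.mk_mul, QuotientGroup.mk_inv, QuotientGroup.mk_inv,
      hq2 g h]
    group
  rw [derivedSeries_succ, eq_bot_iff]
  refine (Subgroup.commutator_mono hG1 hG1).trans ?_
  rw [Subgroup.commutator_le]
  intro k hk l hl
  rw [Subgroup.mem_bot, commutatorElement_def, hKK k hk l hl]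
  group

end Ito

/-! ### Dihedral groups -/

section Dihedral

open DihedralGroup

/-- the rotations by multiples of `2 ^ k` -/
def R (n k : ℕ) : Subgroup (DihedralGroup n) where
  carrier := {g | ∃ i : ZMod n, g = r ((2 : ZMod n) ^ k * i)}
  one_mem' := ⟨0, by rw [mul_zero]; rfl⟩
  mul_mem' := by
    rintro _ _ ⟨i, rfl⟩ ⟨j, rfl⟩
    exact ⟨i + j, by rw [r_mul_r, mul_add]⟩
  inv_mem' := by
    rintro _ ⟨i, rfl⟩
    exact ⟨-i, by rw [inv_r, mul_neg]⟩

theorem comm_R (n k : ℕ) : ⁅R n k, (⊤ : Subgroup (DihedralGroup n))⁆ ≤ R n (k + 1) := by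
  rw [Subgroup.commutator_le]
  rintro _ ⟨i, rfl⟩ g -
  rw [commutatorElement_def]
  rcases g with j | j
  · refine ⟨0, ?_⟩
    simp only [r_mul_r, inv_r, mul_zero]
    congr 1
    ring
  · refine ⟨i, ?_⟩
    simp only [r_mul_sr, inv_r, inv_sr, sr_mul_r, sr_mul_sr]
    congr 1
    ring

theorem comm_top (n : ℕ) :
    ⁅(⊤ : Subgroup (DihedralGroup n)), (⊤ : Subgroup (DihedralGroup n))⁆ ≤ R n 1 := by
  rw [Subgroup.commutator_le]
  rintro g - h -
  rw [commutatorElement_def]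
  rcases g with i | i <;> rcases h with j | j
  · refine ⟨0, ?_⟩
    simp only [r_mul_r, inv_r, mul_zero]
    congr 1
    ring
  · refine ⟨i, ?_⟩
    simp only [r_mul_sr, inv_r, inv_sr, sr_mul_r, sr_mul_sr]
    congr 1
    ring
  · refine ⟨-j, ?_⟩
    simp only [r_mul_sr, inv_r, inv_sr, sr_mul_r, sr_mul_sr, r_mul_r]
    congr 1
    ring
  · refine ⟨j - i, ?_⟩
    simp only [r_mul_sr, inv_r, inv_sr, sr_mul_r, sr_mul_sr, r_mul_r]
    congr 1
    ring

theorem lcs_le (n k : ℕ) :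
    Subgroup.lowerCentralSeries (⊤ : Subgroup (DihedralGroup n)) (k + 1) ≤ R n (k + 1) := by
  induction k with
  | zero => exact comm_top n
  | succ k ih =>
    rw [Subgroup.lowerCentralSeries_succ]
    exact (Subgroup.commutator_mono ih le_rfl).trans (comm_R n (k + 1))

theorem le_lcs (n k : ℕ) :
    r ((2 : ZMod n) ^ k) ∈ Subgroup.lowerCentralSeries (⊤ : Subgroup (DihedralGroup n)) k := by
  induction k with
  | zero => exact Subgroup.mem_top _
  | succ k ih =>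
    rw [Subgroup.lowerCentralSeries_succ]
    have h := Subgroup.commutator_mem_commutator ih (Subgroup.mem_top (sr 0 : DihedralGroup n))
    have e : ⁅(r ((2 : ZMod n) ^ k) : DihedralGroup n), sr 0⁆ = r ((2 : ZMod n) ^ (k + 1)) := by
      rw [commutatorElement_def]
      simp only [r_mul_sr, inv_r, inv_sr, sr_mul_r, sr_mul_sr]
      congr 1
      ring
    rw [← e]
    exact h

theorem R_bot (c : ℕ) : R (2 ^ c) c = ⊥ := by
  rw [eq_bot_iff]
  rintro _ ⟨i, rfl⟩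
  rw [Subgroup.mem_bot]
  have h : ((2 : ZMod (2 ^ c)) ^ c) = 0 := by
    have := ZMod.natCast_self (2 ^ c)
    push_cast at this
    exact this
  rw [h, zero_mul]
  rfl

/-- the dihedral group of order `2 ^ (c + 1)` has class `c` -/
theorem dihedral_class (c : ℕ) (hc : 1 ≤ c) :
    ∃ _ : Group.IsNilpotent (DihedralGroup (2 ^ c)),
      Group.nilpotencyClass (DihedralGroup (2 ^ c)) = c := by
  have h1 : Subgroup.lowerCentralSeries (⊤ : Subgroup (DihedralGroup (2 ^ c))) c = ⊥ := by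
    obtain ⟨k, rfl⟩ : ∃ k, c = k + 1 := ⟨c - 1, by omega⟩
    rw [eq_bot_iff, ← R_bot]
    exact lcs_le _ k
  have hn : Group.IsNilpotent (DihedralGroup (2 ^ c)) :=
    Subgroup.nilpotent_iff_lowerCentralSeries.2 ⟨c, h1⟩
  refine ⟨hn, le_antisymm (Subgroup.lowerCentralSeries_eq_bot_iff_nilpotencyClass_le.1 h1) ?_⟩
  by_contra hlt
  push Not at hlt
  have h2 : Subgroup.lowerCentralSeries (⊤ : Subgroup (DihedralGroup (2 ^ c))) (c - 1) = ⊥ :=
    Subgroup.lowerCentralSeries_eq_bot_iff_nilpotencyClass_le.2 (by omega)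
  have h3 := le_lcs (2 ^ c) (c - 1)
  rw [h2, Subgroup.mem_bot] at h3
  have h4 : ((2 : ZMod (2 ^ c)) ^ (c - 1)) = 0 := by
    rw [one_def] at h3
    exact DihedralGroup.r.inj h3
  have h5 : ((2 ^ (c - 1) : ℕ) : ZMod (2 ^ c)) = 0 := by push_cast; exact h4
  rw [ZMod.natCast_eq_zero_iff] at h5
  have h6 := Nat.le_of_dvd (by positivity) h5
  have h7 : 2 ^ (c - 1) < 2 ^ c := Nat.pow_lt_pow_right (by norm_num) (by omega)
  omega

theorem dihedral_metabelian (n : ℕ) : derivedSeries (DihedralGroup n) 2 = ⊥ := by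
  rw [derivedSeries_succ, eq_bot_iff]
  have h1 : derivedSeries (DihedralGroup n) 1 ≤ R n 1 := comm_top n
  refine (Subgroup.commutator_mono h1 h1).trans ?_
  rw [Subgroup.commutator_le]
  rintro _ ⟨i, rfl⟩ _ ⟨j, rfl⟩
  rw [Subgroup.mem_bot, commutatorElement_def]
  simp only [r_mul_r, inv_r]
  rw [one_def]
  congr 1
  ring

end Dihedral

/-! ### Products -/

theorem ds_prod {G L : Type} [Group G] [Group L] (n : ℕ) (h1 : derivedSeries G n = ⊥)
    (h2 : derivedSeries L n = ⊥) : derivedSeries (G × L) n = ⊥ := by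
  rw [eq_bot_iff]
  intro x hx
  rw [Subgroup.mem_bot]
  have h3 := map_derivedSeries_le_derivedSeries (MonoidHom.fst G L) n ⟨x, hx, rfl⟩
  have h4 := map_derivedSeries_le_derivedSeries (MonoidHom.snd G L) n ⟨x, hx, rfl⟩
  rw [h1, Subgroup.mem_bot] at h3
  rw [h2, Subgroup.mem_bot] at h4
  exact Prod.ext h3 h4

theorem ds_of_surjective {G L : Type} [Group G] [Group L] (f : G →* L)
    (hf : Function.Surjective f) (n : ℕ) (h : derivedSeries G n = ⊥) :
    derivedSeries L n = ⊥ := by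
  rw [← map_derivedSeries_eq hf, h, Subgroup.map_bot]

theorem class_eq {S A H : Type} [Group S] [Group A] [Group H] [Group.IsNilpotent A]
    [Group.IsNilpotent H] (c : ℕ) (hA : Group.nilpotencyClass A ≤ c)
    (hH : Group.nilpotencyClass H = c) (φ : A × H →* S) (hφ : Function.Surjective φ)
    (ψ : S →* H) (hψ : Function.Surjective ψ) :
    ∃ _ : Group.IsNilpotent S, Group.nilpotencyClass S = c := by
  have hS : Group.IsNilpotent S := Group.nilpotent_of_surjective φ hφ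
  refine ⟨hS, le_antisymm ?_ ?_⟩
  · refine (Group.nilpotencyClass_le_of_surjective φ hφ).trans ?_
    rw [Group.nilpotencyClass_prod, hH]
    exact max_le hA le_rfl
  · rw [← hH]
    exact Group.nilpotencyClass_le_of_surjective ψ hψ

end Pool.Agent.Y795.DLC
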